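import Pool.Agent.V1143.LR.Inf

/-!
# The Lang-Rohrlich lower bound with primitive fractions only is false

`gammaField q` is the field generated over `ℚ` by `π` and the numbers `Γ(a/q)`, `1 ≤ a ≤ q - 1`,
`gcd(a,q) = 1`. Its transcendence degree is at most `3 = φ(14)/2` for `q = 14`. More generally, for
every odd `m > 1` such that `-1` is not a power of `2` modulo `m`, the transcendence degree for
`q = 2m` is at most `1 + φ(q)/2 - φ(q)/(2f)`, where `f` is the order of `2` modulo `m`, and the
difference between `1 + φ(q)/2` and the transcendence degree is unbounded.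
-/

set_option autoImplicit false

namespace Pool.Agent.Results.MP_274814_nt.FailsAtFourteen

open Pool.Agent.V1143.LR Cardinal

theorem result :
    (¬ ∀ q : ℕ, 2 < q →
      ((1 + Nat.totient q / 2 : ℕ) : Cardinal) ≤ Algebra.trdeg ℚ (gammaField q)) ∧
    Algebra.trdeg ℚ (gammaField 14) ≤ ((Nat.totient 14 / 2 : ℕ) : Cardinal) ∧
    (∀ m : ℕ, 1 < m → Odd m → (∀ k : ℕ, (2 : ZMod m) ^ k ≠ -1) →
      Algebra.trdeg ℚ (gammaField (2 * m)) ≤
        ((1 + Nat.totient (2 * m) / 2
          - Nat.totient (2 * m) / (2 * orderOf (2 : ZMod m)) : ℕ) : Cardinal)) ∧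
    (∀ C : ℕ, ∃ q : ℕ, 2 < q ∧
      Algebra.trdeg ℚ (gammaField q) + (C : Cardinal)
        ≤ ((1 + Nat.totient q / 2 : ℕ) : Cardinal)) := by
  have e : Nat.totient 14 / 2 = 3 := by decide
  refine ⟨fun h => ?_, ?_, fun m h1 hm hneg => trdeg_bound h1 hm hneg, unbounded⟩
  · have h14 := (h 14 (by norm_num)).trans fourteen
    rw [e, Nat.cast_le] at h14
    omega
  · rw [e]
    exact fourteen

end Pool.Agent.Results.MP_274814_nt.FailsAtFourteen
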